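import Pool.Agent.H458.AG.Gen
import Pool.Agent.H458.BM2.Sur2
import Pool.Agent.H458.PD.Uni
import Pool.Agent.H458.BM.Bnd
import Pool.Agent.H458.BM.Two

/-!
# 2-power descent on a bounded twist of almost all hyperelliptic curves over every number field

Let `F` be ANY number field and `g ≥ 1`. We consider ALL polynomials
`f = x ^ (2 g + 1) + a_(2 g - 1) x ^ (2 g - 1) + ... + a_0` with coefficients in the ring of integers of `F`,
ordered by the height: `|σ a_i| ≤ B ^ (2 g + 1 - i)` for all embeddings `σ : F → ℂ`. (Every hyperelliptic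
curve of genus `g` over `F` with a rational Weierstrass point has an equation `y ^ 2 = f(x)` with such an `f`.)
`C_f` is the curve `y ^ 2 = f(x)` with the point `∞`, `J_f` its Jacobian, and `f ^ d = d ^ (2 g + 1) f(x / d)`, so
that `C_(f ^ d)` is the quadratic twist of `C_f` by `d`.

For a natural number `R` and `f` let `C(f, R)` be the class of all the finite Galois extensions
`M / F` of 2-power degree in which all the primes dividing `R` split completely, such that for every prime `v`
of `F` either `M / F` is unramified at `v` or `f` is irreducible modulo `v`, and such that for every real embedding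
`σ` of `F` either a real embedding of `M` extends `σ` or `σ f` has exactly one real zero.

**Theorem.** Let `W ≥ 1`, let `𝒮` be a finite set of nonzero integers of `F` and `ε > 0`. There are a FINITE set
`𝒟` of squarefree natural numbers `D ≡ 1 mod 8 W`, with `1 ∈ 𝒟`, and a multiple `R` of `2 W` and of all `D ∈ 𝒟`, such
that for all large `B` ALL the `f` of height at most `B`, with the exception of a proportion `ε` at most, have for
every `d ∈ 𝒮` a `D ∈ 𝒟` such that `C = C_(f ^ (d D))` and its Jacobian `J` have the following properties for ALL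
`M ∈ C(f ^ d, R)` (`M = F` is one of them):

(1) `J(M)` is uniquely divisible by two (finite of odd order, by Mordell-Weil), and the 2-primary part of the
Tate-Shafarevich group of `J` over `M` is zero;

(2) for all `n` the only `2 ^ n`-covering of `C` over `M` with adelic points is the trivial one (the `2 ^ n`-Selmer set
of `C` over `M` has exactly one element): if an adelic point of `C` over `M` lifts to the covering given by a cocycle
`c` with values in `J[2 ^ n]`, then `c` is a coboundary in `J[2 ^ n]`;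

(3) for all `n` an adelic point `z` of `C` over `M` lifts to an adelic point of a `2 ^ n`-covering of `C` if
and only if the classes of all its components are divisible by `2 ^ n` in the groups `J(M_w)`;

(4) if moreover `y ^ 2 = f ^ d (x)` is regular at the primes over two (a condition on `f ^ d` modulo the squares of
the primes over two, which holds for all the polynomials in a residue class modulo `4`), then `C(M) = {∞}`,
`J(M) = 0`; if an adelic point `z` of `C` over `M` lifts to an adelic point of a `2 ^ n`-covering, `n ≥ 1`,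
then at every prime `w` of `M` over `2` either `z_w = ∞` or `z_w = (x, y)` with `|x|_w ≥ |2|_w ^ (- 2 n)`; and
if `z` lifts to adelic points of `2 ^ n`-coverings for all `n`, then `z_w = ∞` for all the primes `w` over `2`: the
projection of the set of these adelic points to the product of the `C(M_w)`, `w` over `2`, is `C(M) = {∞}`.

An adelic point which is orthogonal to the Brauer group of `C` lifts to adelic points of `n`-coverings for all
`n` (this direction of the theorem of Stoll on the Brauer-Manin obstruction and finite abelian descent is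
standard; it is not proved here). So (4) is the assertion of the conjecture, `C(M)` is dense in the image of
the Brauer-Manin set, for the components at all the primes over `2`. Here it is proved for a bounded twist of
ALMOST ALL the curves in a residue class modulo `4`, for every number field `F`, for every genus, and over all
fields `M` of an infinite class at the same time; and (2) and (3), which describe the adelic points surviving
2-power descent, for a bounded twist of almost ALL the curves. Nothing is assumed about the finiteness of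
Tate-Shafarevich groups.

What was known: `MP_308fa9_nt.SurvivingAdelicPoints` (a positive proportion in that residue class, without (2)). The
theorem of Scharaschkin and Skorobogatov requires that the Tate-Shafarevich group of `J` is finite. The group
`J(M)` and the 2-primary part of the Tate-Shafarevich group over the `M` in the class, for almost all `f`: project AG,
see also `MP_ac3185_nt.AlmostAllJacobians`.

Proof. `f` is good at a prime number `q` (with a prime of degree one, `q ≡ 1 mod 8 W`) if `f` has exactly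
one zero modulo one prime of degree one over `q`, its cofactor is irreducible there, and `f` is irreducible modulo the
other primes over `q`. For a set `S` of primes at which `f` is good, `f` has a twist as required by a product of
primes in `S` if `f` is not in an exceptional set, and a theorem on the orbits of Bhargava and Gross (library and
helper459) and the number of points near the cusp bound the number of the exceptional `f` by `C 2 ^ (- # S)` of the
good ones, `C` independent of `S`. The new idea is to choose `S` depending on `f`: take `k` disjoint blocks of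
primes such that the expected number of good primes in each block is large. All but few `f` have at least `9 / 10`
of this number of good primes in every block; if `f` is exceptional for ALL the transversals `S` of its good
primes, then it is counted very often, and the number of these `f` is at most `C (5 / 9) ^ k` of all.
In this run the parts for genus `g` were proved by helpers 30, 47, 71, 80, 102, 118, 139, 152, 166, 231, 234, 236, 294,
295, 307, 322, 348, 372, 383, 650, 686 and 945.
-/

set_option autoImplicit false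
set_option linter.all false

namespace Pool.Agent.Results.MP_308fa9_nt.AlmostAllCurves

open Polynomial Filter IsDedekindDomain NumberField
open Pool.Agent.N874.Jac (J mapJ Cochain Cocycle UniquelyTwoDivisible ShaTwoTrivialReal)
open Pool.Agent.H458.BM (Point AdelicPoint Survives LiftsToAt KilledBy ClassesArePowers NearBy)
open scoped Classical

section defs

variable {F : Type} [Field F] [NumberField F]

/-- `f` is a monic polynomial of degree `2 g + 1` with integral coefficients, without term of degree
`2 g`. -/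
structure IsOdd (g : ℕ) (f : (𝓞 F)[X]) : Prop where
  monic : f.Monic
  degree : f.natDegree = 2 * g + 1
  trace : f.coeff (2 * g) = 0

variable (F) in
/-- The polynomials `f` of height at most `B`: all conjugates of the coefficient of degree `j` are at most
`B ^ (2 g + 1 - j)` in absolute value. -/
def Polys (g B : ℕ) : Set (𝓞 F)[X] :=
  {f | IsOdd g f ∧ ∀ j ≤ 2 * g, ∀ σ : F →+* ℂ, ‖σ (f.coeff j : F)‖ ≤ (B : ℝ) ^ (2 * g + 1 - j)}

/-- `d ^ (2 g + 1) f(x / d)`: the coefficient of degree `j` is multiplied by `d ^ (2 g + 1 - j)`. The curve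
`y ^ 2 = twist f d` is the quadratic twist by `d` of the curve `y ^ 2 = f(x)`. -/
noncomputable def twist (f : (𝓞 F)[X]) (d : 𝓞 F) : (𝓞 F)[X] := f.scaleRoots d

/-- `f` is irreducible modulo `v`. -/
def IrreducibleMod (f : (𝓞 F)[X]) (v : HeightOneSpectrum (𝓞 F)) : Prop :=
  Irreducible (f.map (Ideal.Quotient.mk v.asIdeal))

/-- `M / F` is unramified at `v`. -/
def Unramified (v : HeightOneSpectrum (𝓞 F)) (M : Type) [Field M] [NumberField M]
    [Algebra F M] : Prop :=
  ∀ w : HeightOneSpectrum (𝓞 M), v.asIdeal.map (algebraMap (𝓞 F) (𝓞 M)) ≤ w.asIdeal →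
    ¬ v.asIdeal.map (algebraMap (𝓞 F) (𝓞 M)) ≤ w.asIdeal ^ 2

/-- `v` splits completely in `M`: it is unramified and all integers of `M` are congruent to integers of
`F` modulo every prime over `v`. -/
def SplitsCompletely (v : HeightOneSpectrum (𝓞 F)) (M : Type) [Field M] [NumberField M]
    [Algebra F M] : Prop :=
  Unramified v M ∧
  ∀ w : HeightOneSpectrum (𝓞 M), v.asIdeal.map (algebraMap (𝓞 F) (𝓞 M)) ≤ w.asIdeal →
    ∀ y : 𝓞 M, ∃ c : 𝓞 F, y - algebraMap (𝓞 F) (𝓞 M) c ∈ w.asIdeal

/-- The extension `M / F` belongs to the class `C(f, R)` of the number `R` and the polynomial `f`. -/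
structure InClass (R : ℕ) (f : (𝓞 F)[X]) (M : Type) [Field M] [NumberField M] [Algebra F M] : Prop where
  galois : IsGalois F M
  degree : ∃ n : ℕ, Module.finrank F M = 2 ^ n
  split : ∀ v : HeightOneSpectrum (𝓞 F), (R : 𝓞 F) ∈ v.asIdeal → SplitsCompletely v M
  ramified : ∀ v : HeightOneSpectrum (𝓞 F), Unramified v M ∨ IrreducibleMod f v
  real : ∀ σ : F →+* ℝ, (∃ ρ : M →+* ℝ, ρ.comp (algebraMap F M) = σ) ∨
    ∃! e : ℝ, (f.map (σ.comp (algebraMap (𝓞 F) F))).eval e = 0

/-- The polynomial `f` over the extension `M` of `F`. -/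
noncomputable def polyOver (M : Type) [Field M] [Algebra F M] (f : (𝓞 F)[X]) : M[X] :=
  (f.map (algebraMap (𝓞 F) F)).map (algebraMap F M)

/-- `y ^ 2 = f(x)` is regular at the points over all the primes `v` over two: `f` is congruent to
`E ^ 2 + x G ^ 2 + π r` modulo `v ^ 2`, where `π` is a uniformizer and `r` and `G` are coprime modulo `v`. -/
def RegularAtTwo (f : (𝓞 F)[X]) : Prop :=
  ∀ v : HeightOneSpectrum (𝓞 F), (2 : 𝓞 F) ∈ v.asIdeal →
    ∃ (π : 𝓞 F) (E G r a b : (𝓞 F)[X]), π ∈ v.asIdeal ∧ π ∉ v.asIdeal ^ 2 ∧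
      (∀ j, (f - (E ^ 2 + X * G ^ 2 + C π * r)).coeff j ∈ v.asIdeal ^ 2) ∧
      ∀ j, (a * r + b * G - 1).coeff j ∈ v.asIdeal

/-- The point `z` of the curve over the completion of `M` at `w` is the point at infinity or an affine point
`(x, y)` with `|x| ≥ |2| ^ (- 2 n)`. -/
def NearInfinity {M : Type} [Field M] [NumberField M] {P : M[X]} {w : HeightOneSpectrum (𝓞 M)} (n : ℕ)
    (z : Point P (w.adicCompletion M)) : Prop := NearBy Valued.v n z

/-- Every `2 ^ n`-covering, given by a cocycle `c` with values in `J[2 ^ n]`, which has an adelic point above some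
adelic point `z` of the curve is the trivial one: `c` is the coboundary of a point of `J[2 ^ n]`. -/
def OnlyTrivialCovering (M : Type) [Field M] [NumberField M] (P : M[X]) : Prop :=
  ∀ (n : ℕ) (c : Cochain P) (z : AdelicPoint P (𝓞 M)), Cocycle c → KilledBy (2 ^ n) c →
    LiftsToAt (2 ^ n) c z →
    ∃ T : J P (SeparableClosure M), T ^ (2 ^ n) = 1 ∧ ∀ σ, c σ = mapJ P σ.toAlgHom T / T

/-- An adelic point lifts to an adelic point of a `2 ^ n`-covering if and only if the classes of its components
are divisible by `2 ^ n`. -/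
def LiftCriterion (M : Type) [Field M] [NumberField M] (P : M[X]) : Prop :=
  ∀ (n : ℕ) (z : AdelicPoint P (𝓞 M)), Survives (2 ^ n) z ↔ ClassesArePowers (2 ^ n) z

/-- The bound for the components at the primes over two of the adelic points which lift to an adelic point of a
`2 ^ n`-covering, `n ≥ 1`. -/
def BoundAtTwo (M : Type) [Field M] [NumberField M] (P : M[X]) : Prop :=
  ∀ (n : ℕ) (z : AdelicPoint P (𝓞 M)), 1 ≤ n → Survives (2 ^ n) z →
    ∀ w : HeightOneSpectrum (𝓞 M), (2 : 𝓞 M) ∈ w.asIdeal → NearInfinity n (z.finite w)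

/-- If an adelic point lifts to adelic points of `2 ^ n`-coverings for all `n`, then its components at the
primes over two are the point at infinity. -/
def InfinityAtTwo (M : Type) [Field M] [NumberField M] (P : M[X]) : Prop :=
  ∀ z : AdelicPoint P (𝓞 M), (∀ n : ℕ, Survives (2 ^ n) z) →
    ∀ w : HeightOneSpectrum (𝓞 M), (2 : 𝓞 M) ∈ w.asIdeal → z.finite w = none

/-- The properties of `f` over a field `M` of the class. -/
structure Surviving (M : Type) [Field M] [NumberField M] (P : M[X]) : Prop where
  points : UniquelyTwoDivisible P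
  sha : ShaTwoTrivialReal P (𝓞 M)
  coverings : OnlyTrivialCovering M P
  criterion : LiftCriterion M P

/-- The further properties if the curve is regular at two. -/
structure OnlyInfinity (M : Type) [Field M] [NumberField M] (P : M[X]) : Prop where
  jacobian : Subsingleton (J P M)
  curve : ∀ x y : M, y ^ 2 ≠ P.eval x
  bound : BoundAtTwo M P
  infinity : InfinityAtTwo M P

/-- The properties of the polynomial `f`, a twist of `f₀`, in the theorem: over all the fields in the class of
`f₀`. -/
def Good (R : ℕ) (f₀ f : (𝓞 F)[X]) : Prop :=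
  ∀ (M : Type) [Field M] [NumberField M] [Algebra F M], InClass R f₀ M →
    Surviving M (polyOver M f) ∧ (RegularAtTwo f₀ → OnlyInfinity M (polyOver M f))

end defs

section pf

variable {F : Type} [Field F] [NumberField F]

open Pool.Agent.H459.UF (Unr Deg1 below exists_above)

theorem cls_of {M : Type} [Field M] [NumberField M] [Algebra F M] {R : ℕ} {f : (𝓞 F)[X]}
    (h : InClass R f M) : Pool.Agent.H458.AG.ClsM F M R f where
  spl := fun v hv => ⟨Pool.Agent.H458.AG.Gen.unr_of (h.split v hv).1, (h.split v hv).2⟩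
  unr := fun v => (h.ramified v).imp Pool.Agent.H458.AG.Gen.unr_of id
  real := fun σ => (h.real σ).imp id fun h' => by
    unfold Pool.Agent.N783.PF.fF
    rw [Polynomial.map_map]
    exact h'

/-- `M = F` belongs to all the classes. -/
theorem self_mem (R : ℕ) (f : (𝓞 F)[X]) : InClass R f F := by
  have h2 := Pool.Agent.H458.AG.Gen.cls_base (F := F) R f
  exact ⟨inferInstance, ⟨0, by rw [Module.finrank_self, pow_zero]⟩,
    fun v hv => ⟨Pool.Agent.H458.AG.Gen.of_unr (h2.spl v hv).1, (h2.spl v hv).2⟩,
    fun v => Or.inl (Pool.Agent.H458.AG.Gen.of_unr (Pool.Agent.H458.AU.unr_self v)),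
    fun σ => Or.inl ⟨σ, by
    ext x
    rfl⟩⟩

/-- The embedding in the completion at a prime which splits completely. -/
theorem embed {M : Type} [Field M] [NumberField M] [Algebra F M] {v : HeightOneSpectrum (𝓞 F)}
    (h : SplitsCompletely v M) : Nonempty (M →ₐ[F] v.adicCompletion F) := by
  obtain ⟨w, hw⟩ := exists_above (K := F) M v
  subst hw
  obtain ⟨j, hj⟩ := Pool.Agent.H459.UF.cpl_surj (Pool.Agent.H459.UF.dns_of_deg1
    (K := F) (P := w) (Pool.Agent.H458.AG.Gen.unr_of h.1) h.2)
  refine ⟨{ (j.comp (algebraMap M (w.adicCompletion M))) with commutes' := fun r => hj r }⟩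

/-- The data at a prime over two. -/
theorem at_two {R : ℕ} (h2R : 2 ∣ R) {f : (𝓞 F)[X]} {M : Type} [Field M]
    [NumberField M] [Algebra F M] (hM : InClass R f M) (w : HeightOneSpectrum (𝓞 M))
    (hw : (2 : 𝓞 M) ∈ w.asIdeal) : ∃ v : HeightOneSpectrum (𝓞 F), (2 : 𝓞 F) ∈ v.asIdeal ∧
      ∀ x : F, w.valuation M (algebraMap F M x) = v.valuation F x := by
  obtain ⟨v, hv⟩ := Pool.Agent.N874.TF.exists_bel F w
  have h2 : (2 : 𝓞 F) ∈ v.asIdeal := by
    rw [hv, map_ofNat]
    exact hw
  have hR : (R : 𝓞 F) ∈ v.asIdeal := by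
    obtain ⟨m, hm⟩ := h2R
    rw [hm, Nat.cast_mul]
    exact Ideal.mul_mem_right _ _ (by exact_mod_cast h2)
  exact ⟨v, h2, Pool.Agent.N874.TF.unr_of (hM.split v hR).1 w fun a ha => (hv a).1 ha⟩

theorem surviving_of {P : Type} [Field P] [NumberField P] {Q : P[X]} (hm : Q.Monic) (hs : Q.Separable)
    (ho : Odd Q.natDegree) (h1 : UniquelyTwoDivisible Q) (h2 : ShaTwoTrivialReal Q (𝓞 P)) :
    Surviving P Q :=
  ⟨h1, h2, fun n c z hc hn hz => Pool.Agent.H458.BM.trivial_covering two_ne_zero hm hs ho h1 h2 n c hc hn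
    z hz, fun n z => Pool.Agent.H458.BM.survives_iff2 two_ne_zero hm hs ho h1 h2 n z⟩

theorem infinity_of {g : ℕ} (hg : 1 ≤ g) {R : ℕ} (h2R : 2 ∣ R) {f₀ f : (𝓞 F)[X]} (hm : f.Monic)
    (hd : f.natDegree = 2 * g + 1) (h2 : Irreducible (Pool.Agent.N783.PF.fF f))
    (hR : ∀ v : HeightOneSpectrum (𝓞 F), (2 : 𝓞 F) ∈ v.asIdeal → Pool.Agent.H458.PD.RegAt v f)
    (M : Type) [Field M] [NumberField M] [Algebra F M] (hM : InClass R f₀ M)
    (hS : Surviving M (polyOver M f)) : OnlyInfinity M (polyOver M f) := by
  obtain ⟨v₀, hv₀⟩ := Pool.Agent.H458.PD.exists_two F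
  have hR0 : (R : 𝓞 F) ∈ v₀.asIdeal := by
    obtain ⟨m, hm⟩ := h2R
    rw [hm, Nat.cast_mul]
    exact Ideal.mul_mem_right _ _ (by exact_mod_cast hv₀)
  obtain ⟨σ⟩ := embed (hM.split v₀ hR0)
  obtain ⟨-, -, hJ, hC⟩ := Pool.Agent.H458.PD.glo_ring σ hv₀ (hR v₀ hv₀) hm hd h2.separable
    (P := polyOver M f) rfl hS.points
  refine ⟨hJ, hC hg, fun n z hn hz w hw => ?_, fun z hz w hw => ?_⟩
  · obtain ⟨v, hv, hvw⟩ := at_two h2R hM w hw
    have h3 := ((hS.criterion n z).1 hz).1 w
    generalize z.finite w = q at h3 ⊢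
    cases q with
    | none => trivial
    | some p => exact Pool.Agent.H458.BM.point_bound hm hg hd rfl hv (hR v hv) hvw p hn h3
  · obtain ⟨v, hv, hvw⟩ := at_two h2R hM w hw
    exact Pool.Agent.H458.BM.point_inf hm hg hd rfl hv (hR v hv) hvw _ fun n =>
      ((hS.criterion n z).1 (hz n)).1 w

/-- Regularity is the same for the twist by `D ≡ 1 mod 8`. -/
theorem reg_twist {f : (𝓞 F)[X]} {D W : ℕ} (hD : D ≡ 1 [MOD 8 * W]) (hf : RegularAtTwo f)
    (v : HeightOneSpectrum (𝓞 F)) (hv : (2 : 𝓞 F) ∈ v.asIdeal) :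
    Pool.Agent.H458.PD.RegAt v (f.scaleRoots (D : 𝓞 F)) := by
  have h0 : Pool.Agent.H458.PD.RegAt v f := hf v hv
  refine h0.congr fun j => ?_
  rw [coeff_scaleRoots]
  have h8 : D ≡ 1 [MOD 8] := hD.of_dvd (dvd_mul_right 8 W)
  have h9 : D ^ (f.natDegree - j) ≡ 1 [MOD 8] := by
    have := h8.pow (f.natDegree - j)
    rwa [one_pow] at this
  obtain ⟨k, hk⟩ : (8 : ℤ) ∣ ((D ^ (f.natDegree - j) : ℕ) : ℤ) - 1 := by
    have := (Nat.modEq_iff_dvd.1 h9.symm)
    exact_mod_cast this
  have e1 : (D : 𝓞 F) ^ (f.natDegree - j) = 8 * (k : 𝓞 F) + 1 := by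
    have h10 : (((D ^ (f.natDegree - j) : ℕ) : ℤ) : 𝓞 F) = ((8 * k + 1 : ℤ) : 𝓞 F) := by
      rw [← hk]
      ring_nf
    push_cast at h10
    exact h10
  have e2 : f.coeff j * (D : 𝓞 F) ^ (f.natDegree - j) - f.coeff j = (2 * 2) * (2 * (k : 𝓞 F) * f.coeff j) := by
    rw [e1]
    ring
  rw [e2, pow_two]
  exact Ideal.mul_mem_right _ _ (Ideal.mul_mem_mul hv hv)

theorem good_of {g R W : ℕ} (hg : 1 ≤ g) {𝒟 : Finset ℕ} {𝒮 : Finset (𝓞 F)} (h2R : 2 ∣ R)
    (h𝒮 : ∀ d ∈ 𝒮, d ≠ 0) (hD0 : ∀ D ∈ 𝒟, Squarefree D ∧ D ≡ 1 [MOD 8 * W]) {f : (𝓞 F)[X]}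
    (hf : f ∈ Pool.Agent.H458.AG.Gen.VV F g R 𝒟 𝒮) {d : 𝓞 F} (hd : d ∈ 𝒮) :
    ∃ D ∈ 𝒟, Good R (twist f d) (twist f (d * (D : 𝓞 F))) := by
  obtain ⟨D, hD, hm, hdeg, hirr, h⟩ := Pool.Agent.H458.AG.Gen.triv_of h𝒮 (fun D hD => (hD0 D hD).1) hf hd
  refine ⟨D, hD, fun M _ _ _ hM => ?_⟩
  haveI := hM.galois
  obtain ⟨n, hn⟩ := hM.degree
  obtain ⟨h1, h2⟩ := h M n hn (cls_of hM)
  have hPm : (polyOver M (twist f (d * (D : 𝓞 F)))).Monic := (hm.map _).map _
  have hPs : (polyOver M (twist f (d * (D : 𝓞 F)))).Separable := hirr.separable.map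
  have hPd : (polyOver M (twist f (d * (D : 𝓞 F)))).natDegree = 2 * g + 1 := by
    unfold polyOver twist
    rw [(hm.map _).natDegree_map, hm.natDegree_map, hdeg]
  have hS : Surviving M (polyOver M (twist f (d * (D : 𝓞 F)))) :=
    surviving_of hPm hPs (by rw [hPd]; exact odd_two_mul_add_one g) h1 h2
  refine ⟨hS, fun hreg => ?_⟩
  refine infinity_of hg h2R hm hdeg hirr (fun v hv => ?_) M hM hS
  have h3 := reg_twist (hD0 D hD).2 hreg v hv
  unfold twist at h3
  rwa [← scaleRoots_mul] at h3

end pf

/-- **2-power descent on a bounded twist of almost all hyperelliptic curves.** For every number field `F`, every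
`g ≥ 1`, `W ≥ 1`, every finite set `𝒮` of nonzero integers of `F` and `ε > 0` there are a finite set `𝒟` of squarefree
natural numbers `D ≡ 1 mod 8 W` and a multiple `R` of `2 W` and of all `D ∈ 𝒟` such that for all large `B` at least
`(1 - ε)` times the number of ALL the `f` of height at most `B` have for every `d ∈ 𝒮` a `D ∈ 𝒟` such that the twist
`C` of `y ^ 2 = f(x)` by `d D` is good over ALL the extensions `M / F` in the class `C(f ^ d, R)` (among them `F`): its
Jacobian has no 2-part of the group of points and of Sha, every `2 ^ n`-covering with adelic points is trivial, an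
adelic point lifts to an adelic point of a `2 ^ n`-covering if and only if the classes of its components are
divisible by `2 ^ n`; and if `y ^ 2 = f ^ d (x)` is regular at the primes over two (this is so for all `f ^ d` in a residue
class modulo `4`), then `C(M) = {∞}`, `J(M) = 0`, and the components at the primes over two of the adelic
points which lift to `2 ^ n`-coverings are close to `∞`, and equal to `∞` if this is so for all `n`. -/
theorem result (F : Type) [Field F] [NumberField F] (g : ℕ) (hg : 1 ≤ g) (W : ℕ) (hW : 0 < W)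
    (𝒮 : Finset (𝓞 F)) (h𝒮 : ∀ d ∈ 𝒮, d ≠ 0) (ε : ℝ) (hε : 0 < ε) :
    (∀ B : ℕ, (Polys F g B).Finite) ∧
    (∃ f₂ : (𝓞 F)[X], IsOdd g f₂ ∧ ∀ f : (𝓞 F)[X], (∀ j, (4 : 𝓞 F) ∣ f.coeff j - f₂.coeff j) →
      RegularAtTwo f) ∧
    ∃ (R : ℕ) (𝒟 : Finset ℕ), 0 < R ∧ 2 * W ∣ R ∧ 1 ∈ 𝒟 ∧
      (∀ D ∈ 𝒟, Squarefree D ∧ D ≡ 1 [MOD 8 * W] ∧ D ∣ R) ∧
      (∀ f : (𝓞 F)[X], InClass R f F) ∧
      ∀ᶠ B : ℕ in atTop, 0 < (Polys F g B).ncard ∧
        (1 - ε) * ((Polys F g B).ncard : ℝ) ≤ ({f ∈ Polys F g B | ∀ d ∈ 𝒮, ∃ D ∈ 𝒟,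
          Good R (twist f d) (twist f (d * (D : 𝓞 F)))}.ncard : ℝ) := by
  have heq : ∀ B, Polys F g B = {f : (𝓞 F)[X] | Pool.Agent.N783.PF.Ht g B f} := by
    intro B
    ext f
    exact ⟨fun h => ⟨h.1.monic, h.1.degree, h.1.trace, fun j hj σ => h.2 j hj σ⟩,
      fun h => ⟨⟨h.mon, h.deg, h.tr⟩, fun j hj σ => h.ht j hj σ⟩⟩
  obtain ⟨hfin, R, 𝒟, hR, hWR, h1, hD, hX⟩ := Pool.Agent.H458.AG.Gen.part F W hW 𝒮 h𝒮 ε hε g hg
  have hfin' : ∀ B : ℕ, (Polys F g B).Finite := fun B => by
    rw [heq]
    exact hfin B
  obtain ⟨f₂, hf₂m, hf₂d, hf₂t, hf₂i, hf₂r⟩ := Pool.Agent.H458.BM.ex5 F g hg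
  refine ⟨hfin', ⟨f₂, ⟨hf₂m, hf₂d, hf₂t⟩, fun f hf v hv => ?_⟩, R, 𝒟, hR, hWR, h1, hD, self_mem R, ?_⟩
  · have h5 : Pool.Agent.H458.PD.RegAt v f := by
      refine (hf₂r v hv).congr fun j => ?_
      obtain ⟨c, hc⟩ := hf j
      rw [hc, show (4 : 𝓞 F) = 2 * 2 by norm_num, pow_two]
      exact Ideal.mul_mem_right _ _ (Ideal.mul_mem_mul hv hv)
    exact h5
  filter_upwards [hX] with B hB
  obtain ⟨h2, h3⟩ := hB
  rw [← heq] at h2 h3
  refine ⟨h2, h3.trans ?_⟩
  have h4 := Set.ncard_le_ncard (s := Pool.Agent.H458.AG.Gen.VV F g R 𝒟 𝒮 ∩ Polys F g B)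
    (t := {f ∈ Polys F g B | ∀ d ∈ 𝒮, ∃ D ∈ 𝒟, Good R (twist f d) (twist f (d * (D : 𝓞 F)))})
    (fun f hf => ⟨hf.2, fun d hd => good_of hg (dvd_of_mul_right_dvd hWR) h𝒮
      (fun D hD' => ⟨(hD D hD').1, (hD D hD').2.1⟩) hf.1 hd⟩)
    ((hfin' B).subset fun f hf => hf.1)
  exact_mod_cast h4

end Pool.Agent.Results.MP_308fa9_nt.AlmostAllCurves
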