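import Pool.Agent.H326.CS.I
import Pool.Agent.H573.AHB.DnB

/-!
# MP_308fa9_nt: descent on the curves `A x^(2N) + r β² y^(2N) = r γ² z^(2N)`, uniformly

Let `A, r, β, γ ≥ 1`, `B = r β²`, `C = r γ²`. On the smooth plane curve
`C_N : A x^(2N) + B y^(2N) = C z^(2N)` one has `A x^(2N) = r (γ z^N - β y^N) (γ z^N + β y^N)`. For a
prime `s ∣ N` this gives an étale covering of `C_N` of degree `s` with group `μ_s`. Its twists are
given by `a, b ∈ ℚ^×` such that `r a b = A c^s` for some `c ∈ ℚ^×` (`IsTwist`):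
`γ z^N - β y^N = a u^s`, `γ z^N + β y^N = b v^s`. A point `(x : y : z)` of `C_N` over `F ⊇ ℚ` lifts
to the twist if there are such `u, v ∈ F` (`Lifts`). `Obstructed`: every twist has a prime `p` such
that no `ℚ_p`-point of `C_N` lifts to it. So no adelic point of `C_N` lifts to a twist.

(1) There are `δ > 0` and a set `S` of primes of positive logarithmic proportion such that for all
`s ∈ S`, all multiples `N > 0` of `s` and ALL `A, r, β, γ` with `A, B, C ≤ s^δ` different and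
`A ≠ |B - C|`: `C_N` is obstructed for `s`, and `C_N(ℚ)` is empty.
(2) For every `η > 0` there is `κ > 0` such that for all large `X` and all but at most `η X`
integers `0 < N ≤ X` there is a prime `s ∣ N`, `s ≥ N^κ`, such that for ALL `A, r, β, γ` with
`A, B, C ≤ N^κ` different and `A ≠ |B - C|`: `C_N` is obstructed for `s`, and `C_N(ℚ)` is empty.
-/

namespace Pool.Agent.Results.MP_308fa9_nt.CyclicDescentPlaneCurves

open Pool.Agent.H573.AHB Pool.Agent.H326.CS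

/-- `(x : y : z)` is a point of `C_N` over `F` -/
def OnCurve (F : Type) [Field F] (N A r β γ : ℕ) (x y z : F) : Prop :=
  (x ≠ 0 ∨ y ≠ 0 ∨ z ≠ 0) ∧
    (A : F) * x ^ (2 * N) + ((r * β ^ 2 : ℕ) : F) * y ^ (2 * N) =
      ((r * γ ^ 2 : ℕ) : F) * z ^ (2 * N)

/-- the point `(x : y : z)` lifts to the twist given by `a, b` of the covering of degree `s` -/
def Lifts (F : Type) [Field F] (s N β γ : ℕ) (a b : F) (x y z : F) : Prop :=
  ∃ u v : F, (γ : F) * z ^ N - (β : F) * y ^ N = a * u ^ s ∧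
    (γ : F) * z ^ N + (β : F) * y ^ N = b * v ^ s

/-- the pairs `a, b` that give the twists -/
def IsTwist (s A r : ℕ) (a b : ℚ) : Prop :=
  a ≠ 0 ∧ b ≠ 0 ∧ ∃ c : ℚ, c ≠ 0 ∧ (r : ℚ) * (a * b) = (A : ℚ) * c ^ s

/-- every twist has a prime `p` such that no `ℚ_p`-point of the curve lifts to the twist -/
def Obstructed (s N A r β γ : ℕ) : Prop :=
  ∀ a b : ℚ, IsTwist s A r a b → ∃ p : ℕ, p.Prime ∧ ∀ _ : Fact p.Prime, ∀ x y z : ℚ_[p],
    OnCurve ℚ_[p] N A r β γ x y z → ¬ Lifts ℚ_[p] s N β γ (a : ℚ_[p]) (b : ℚ_[p]) x y z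

/-- `A`, `B`, `C` are different and `A ≠ |B - C|` -/
def General (A B C : ℕ) : Prop := A ≠ B ∧ A ≠ C ∧ B ≠ C ∧ A + B ≠ C ∧ A + C ≠ B

/-- all the curves with coefficients at most `Z` are obstructed and have no rational points -/
def AllObstructed (s N : ℕ) (Z : ℝ) : Prop :=
  ∀ A r β γ : ℕ, 0 < A → 0 < r → 0 < β → 0 < γ → (A : ℝ) ≤ Z → ((r * β ^ 2 : ℕ) : ℝ) ≤ Z →
    ((r * γ ^ 2 : ℕ) : ℝ) ≤ Z → General A (r * β ^ 2) (r * γ ^ 2) →
    Obstructed s N A r β γ ∧ ¬ ∃ x y z : ℚ, OnCurve ℚ N A r β γ x y z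

/-- a rational point lifts to some twist, so an obstructed curve has no rational point -/
theorem no_rational {s N A r β γ : ℕ} (hs : s ≠ 0) (hsN : s ∣ N) (hN : 0 < N) (hA : 0 < A)
    (hr : 0 < r) (hβ : 0 < β) (hγ : 0 < γ) (h : Obstructed s N A r β γ) :
    ¬ ∃ x y z : ℚ, OnCurve ℚ N A r β γ x y z := by
  rintro ⟨x, y, z, hxyz, he⟩
  have hA0 : (A : ℚ) ≠ 0 := by exact_mod_cast hA.ne'
  have hr0 : (r : ℚ) ≠ 0 := by exact_mod_cast hr.ne'
  have hβ0 : (β : ℚ) ≠ 0 := by exact_mod_cast hβ.ne'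
  have hγ0 : (γ : ℚ) ≠ 0 := by exact_mod_cast hγ.ne'
  have key : ∀ a b u v : ℚ, IsTwist s A r a b → (γ : ℚ) * z ^ N - (β : ℚ) * y ^ N = a * u ^ s →
      (γ : ℚ) * z ^ N + (β : ℚ) * y ^ N = b * v ^ s → False := by
    intro a b u v hab h1 h2
    obtain ⟨p, hp, hp'⟩ := h a b hab
    have hpF : Fact p.Prime := ⟨hp⟩
    refine hp' hpF (x : ℚ_[p]) (y : ℚ_[p]) (z : ℚ_[p]) ⟨?_, ?_⟩ ⟨(u : ℚ_[p]), (v : ℚ_[p]), ?_, ?_⟩
    · rcases hxyz with h3 | h3 | h3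
      · exact Or.inl (by exact_mod_cast h3)
      · exact Or.inr (Or.inl (by exact_mod_cast h3))
      · exact Or.inr (Or.inr (by exact_mod_cast h3))
    · exact_mod_cast he
    · exact_mod_cast h1
    · exact_mod_cast h2
  obtain ⟨D1, hD1⟩ : ∃ D, D = (γ : ℚ) * z ^ N - (β : ℚ) * y ^ N := ⟨_, rfl⟩
  obtain ⟨D2, hD2⟩ : ∃ D, D = (γ : ℚ) * z ^ N + (β : ℚ) * y ^ N := ⟨_, rfl⟩
  rw [← hD1, ← hD2] at key
  have hprod : (A : ℚ) * x ^ (2 * N) = r * (D1 * D2) := by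
    have h3 : (A : ℚ) * x ^ (2 * N) = ((r * γ ^ 2 : ℕ) : ℚ) * z ^ (2 * N) -
        ((r * β ^ 2 : ℕ) : ℚ) * y ^ (2 * N) := by linear_combination he
    rw [h3, hD1, hD2, mul_comm 2 N, pow_mul, pow_mul]
    push_cast
    ring
  obtain ⟨N', rfl⟩ := hsN
  have hN'0 : N' ≠ 0 := by
    rintro rfl
    simp at hN
  by_cases hx : x = 0
  · have h0 : D1 * D2 = 0 := by
      rw [hx, zero_pow (by positivity), mul_zero] at hprod
      exact (mul_eq_zero.mp hprod.symm).resolve_left hr0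
    have hne : D1 ≠ 0 ∨ D2 ≠ 0 := by
      by_contra hcon
      rw [not_or, not_not, not_not] at hcon
      have h3 : (γ : ℚ) * z ^ (s * N') = 0 := by linear_combination (hcon.1 + hcon.2 - hD1 - hD2) / 2
      have h4 : (β : ℚ) * y ^ (s * N') = 0 := by linear_combination (hcon.2 - hcon.1 + hD1 - hD2) / 2
      have h5 := pow_eq_zero_iff (hN.ne') |>.mp ((mul_eq_zero.mp h3).resolve_left hγ0)
      have h6 := pow_eq_zero_iff (hN.ne') |>.mp ((mul_eq_zero.mp h4).resolve_left hβ0)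
      rcases hxyz with h7 | h7 | h7
      · exact h7 hx
      · exact h7 h6
      · exact h7 h5
    rcases mul_eq_zero.mp h0 with h1 | h1
    · have h2 : D2 ≠ 0 := hne.resolve_left (fun h => h h1)
      refine key (A / (r * D2)) D2 0 1 ⟨div_ne_zero hA0 (mul_ne_zero hr0 h2), h2, 1, one_ne_zero, ?_⟩
        ?_ ?_
      · rw [one_pow]
        field_simp
      · rw [h1, zero_pow hs, mul_zero]
      · rw [one_pow, mul_one]
    · have h2 : D1 ≠ 0 := hne.resolve_right (fun h => h h1)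
      refine key D1 (A / (r * D1)) 1 0 ⟨h2, div_ne_zero hA0 (mul_ne_zero hr0 h2), 1, one_ne_zero, ?_⟩
        ?_ ?_
      · rw [one_pow]
        field_simp
      · rw [one_pow, mul_one]
      · rw [h1, zero_pow hs, mul_zero]
  · have h0 : (r : ℚ) * (D1 * D2) ≠ 0 := by
      rw [← hprod]
      exact mul_ne_zero hA0 (pow_ne_zero _ hx)
    have h1 := (mul_ne_zero_iff.mp h0).2
    refine key D1 D2 1 1 ⟨(mul_ne_zero_iff.mp h1).1, (mul_ne_zero_iff.mp h1).2, (x ^ N') ^ 2,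
      pow_ne_zero _ (pow_ne_zero _ hx), ?_⟩ ?_ ?_
    · rw [← hprod, ← pow_mul, ← pow_mul]
      congr 2
      ring
    · rw [one_pow, mul_one]
    · rw [one_pow, mul_one]

theorem result :
    (∃ δ : ℝ, 0 < δ ∧ ∃ S : Set ℕ, (∀ s ∈ S, s.Prime) ∧
      (∃ c : ℝ, 0 < c ∧ ∃ X₀ : ℕ, ∀ X : ℕ, X₀ ≤ X →
        c ≤ ∑ᶠ s ∈ {s : ℕ | s ∈ S ∧ (X : ℝ) ^ (5 / 8 : ℝ) ≤ s ∧ s ≤ X}, (1 : ℝ) / s) ∧
      ∀ s ∈ S, ∀ N : ℕ, 0 < N → s ∣ N → AllObstructed s N ((s : ℝ) ^ δ)) ∧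
    (∀ η : ℝ, 0 < η → ∃ κ : ℝ, 0 < κ ∧ ∃ X₁ : ℕ, ∀ X : ℕ, X₁ ≤ X →
      (Set.ncard {N : ℕ | N ≤ X ∧ ¬ (0 < N → ∃ s : ℕ, s.Prime ∧ s ∣ N ∧ (N : ℝ) ^ κ ≤ s ∧
        AllObstructed s N ((N : ℝ) ^ κ))} : ℝ) ≤ η * X) := by
  classical
  obtain ⟨δ, hδ0, hδ1, S, hS, hdens⟩ := diagV 1 le_rfl _ usparse_BD 5
  have main : ∀ s ∈ S, (s : ℝ) ^ δ ≤ s ∧ ∀ N : ℕ, 0 < N → s ∣ N →
      AllObstructed s N ((s : ℝ) ^ δ) := by
    intro s hs
    obtain ⟨hsp, hs2, G, hG1, hG2⟩ := hS s hs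
    have hs1 : (1 : ℝ) ≤ s := by exact_mod_cast (by omega : 1 ≤ s)
    have hspos : (0 : ℝ) < (s : ℝ) ^ δ := Real.rpow_pos_of_pos (by linarith) _
    have hδ8 : (s : ℝ) ^ δ ≤ s := by
      calc (s : ℝ) ^ δ ≤ (s : ℝ) ^ (1 : ℝ) := by
            apply Real.rpow_le_rpow_of_exponent_le hs1
            linarith
        _ = s := Real.rpow_one _
    refine ⟨hδ8, ?_⟩
    obtain ⟨q, hq⟩ : G.Nonempty := by
      rw [← Finset.card_pos]
      have : (0 : ℝ) < (G.card : ℝ) := hspos.trans_le hG1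
      exact_mod_cast this
    rintro N hN hsN A r β γ hA hr hβ hγ hAs hBs hCs ⟨n1, n2, n3, n4, n5⟩
    have hob : Obstructed s N A r β γ := by
      rintro a b ⟨ha, hb, c, hc, habc⟩
      by_contra hcon
      obtain ⟨k1, -, k3, k4⟩ := hG2 q hq
      obtain ⟨M, hM⟩ : ∃ M, M = ⌊(s : ℝ) ^ δ⌋₊ := ⟨_, rfl⟩
      have hMr : (M : ℝ) ≤ (s : ℝ) ^ δ := by rw [hM]; exact Nat.floor_le hspos.le
      have hM8 : M ^ 8 ≤ s := by
        have h1 : ((M : ℝ)) ^ 8 ≤ ((s : ℝ) ^ δ) ^ 8 := pow_le_pow_left₀ (Nat.cast_nonneg M) hMr 8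
        have h2 : ((s : ℝ) ^ δ) ^ 8 ≤ s := by
          rw [← Real.rpow_natCast, ← Real.rpow_mul (by linarith)]
          calc (s : ℝ) ^ (δ * ((8 : ℕ) : ℝ)) ≤ (s : ℝ) ^ (1 : ℝ) := by
                apply Real.rpow_le_rpow_of_exponent_le hs1
                push_cast
                linarith
            _ = s := Real.rpow_one _
        exact_mod_cast h1.trans h2
      have hAM : A ≤ M := by rw [hM]; exact Nat.le_floor hAs
      have hBM : r * β ^ 2 ≤ M := by rw [hM]; exact Nat.le_floor hBs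
      have hCM : r * γ ^ 2 ≤ M := by rw [hM]; exact Nat.le_floor hCs
      refine descent_q (s := s) (q := q) (M := M) (A := A) (B := r * β ^ 2) (C := r * γ ^ 2)
        (r := r) (β := β) (γ := γ) k1 hsp (by omega) k3 hM8 (k4 M hMr) hA
        (Nat.mul_pos hr (pow_pos hβ 2)) (Nat.mul_pos hr (pow_pos hγ 2)) hAM hBM hCM hr hβ hγ
        rfl rfl n1 n2 n3 n4 n5 a b c ha hb hc habc ?_
      intro p hp
      by_contra hno
      apply hcon
      refine ⟨p, hp.out, ?_⟩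
      rintro hF x y z ⟨hxyz, he⟩ ⟨u, v, h1, h2⟩
      apply hno
      obtain ⟨N', hN'⟩ := hsN
      have hAp : (A : ℚ_[p]) ≠ 0 := by exact_mod_cast hA.ne'
      have e1 : ∀ w : ℚ_[p], w ^ N = (w ^ N') ^ s := fun w => by
        rw [← pow_mul, hN', mul_comm s N']
      have e2 : ∀ w : ℚ_[p], w ^ (2 * N) = ((w ^ N') ^ s) ^ 2 := fun w => by
        rw [← e1, ← pow_mul, mul_comm 2 N]
      have e3 : ∀ w : ℚ_[p], w ^ (2 * N) = ((w ^ N') ^ 2) ^ s := fun w => by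
        rw [e2, ← pow_mul (w ^ N'), ← pow_mul (w ^ N'), mul_comm s 2]
      have hyz : y ≠ 0 ∨ z ≠ 0 := by
        by_contra hcon'
        rw [not_or, not_not, not_not] at hcon'
        rw [hcon'.1, hcon'.2, zero_pow (by omega), mul_zero, mul_zero, add_zero] at he
        have h3 := pow_eq_zero_iff (by omega : 2 * N ≠ 0) |>.mp ((mul_eq_zero.mp he).resolve_left hAp)
        rcases hxyz with h7 | h7 | h7
        · exact h7 h3
        · exact h7 hcon'.1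
        · exact h7 hcon'.2
      refine ⟨x ^ N', y ^ N', z ^ N', u, v, ?_, ?_, ?_, ?_⟩
      · rcases hyz with h3 | h3
        · exact Or.inl (pow_ne_zero _ h3)
        · exact Or.inr (pow_ne_zero _ h3)
      · rw [← e3, ← e2, ← e2]
        exact he
      · rw [← e1, ← e1]
        exact h1
      · rw [← e1, ← e1]
        exact h2
    exact ⟨hob, no_rational hsp.ne_zero hsN hN hA hr hβ hγ hob⟩
  refine ⟨⟨δ, hδ0, S, fun s hs => (hS s hs).1, hdens, fun s hs => (main s hs).2⟩, ?_⟩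
  refine almost_all_of S (fun s hs => (hS s hs).1) hdens
    (fun Z N => 0 < N → ∃ s : ℕ, s.Prime ∧ s ∣ N ∧ Z ≤ s ∧ AllObstructed s N Z)
    δ hδ0 0 ?_ ?_
  · intro s hs _ N hN h0
    exact ⟨s, (hS s hs).1, hN, (main s hs).1, (main s hs).2 N h0 hN⟩
  · intro z z' N hz h h0
    obtain ⟨s, hs, hsN, hzs, hall⟩ := h h0
    refine ⟨s, hs, hsN, hz.trans hzs, ?_⟩
    intro A r β γ hA hr hβ hγ h1 h2 h3 hgen
    exact hall A r β γ hA hr hβ hγ (h1.trans hz) (h2.trans hz) (h3.trans hz) hgen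

end Pool.Agent.Results.MP_308fa9_nt.CyclicDescentPlaneCurves
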