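import Pool.Agent.H326.SE.F
import Pool.Agent.H573.AHB.DnB

/-!
# MP_308fa9_nt: adelic points of superelliptic curves modulo many primes

Let `α_1, ..., α_k` be different integers, `k ≥ 3`, let `N ≥ 1` be prime to `k` and let `C` be the
smooth projective curve `y ^ N = (w - α_1) ... (w - α_k)` over `ℚ`. It has the rational points
`(α_i, 0)` and one (rational) point at infinity. For a prime `s ∣ N` it has the étale covering
`w - α_i = u_i ^ s` (`i = 1, ..., k`; group `μ_s ^ (k - 1)`); its twists are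
`w - α_i = a_i u_i ^ s` with `a_i ∈ ℚ^×`, `a_1 ... a_k` an `s`-th power.

`Survives`: an adelic point `P` of `C` (the real place is ignored) lifts to one of these twists.

(1) There are `δ > 0` and a set `S` of primes of positive logarithmic proportion, and for each
`s ∈ S` a set `G` of at least `s^δ` primes `q ≡ 1 (mod s)`, such that for all multiples `N` of `s`
and ALL curves `C` as above with discriminant at most `s^δ`: every surviving adelic point of `C` reduces modulo each `q ∈ G` to one of the rational points `∞`, `(α_i, 0)`, and this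
rational point is the same for all `q ∈ G` if `k ≥ 4` or the discriminant is not `4` (it is `4`
for three consecutive integers only).
(2) For every `η > 0` there is `κ > 0` such that for all large `X` and all but at most `η X`
integers `0 < N ≤ X` there are a prime `s ∣ N`, `s ≥ N^κ`, and a set `G` of at least `N^κ` primes
with this property for all `C` with discriminant at most `N^κ`.
-/

namespace Pool.Agent.Results.MP_308fa9_nt.SuperellipticDescent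

open Finset Pool.Agent.H573.AHB Pool.Agent.H326.DL Pool.Agent.H326.SE

/-- the points over `F` of the curve `y ^ N = (w - α_1) ... (w - α_k)`: the point at infinity
(`none`) and the affine points `(w, y)` -/
def OnCurve (F : Type) [Field F] (N : ℕ) {k : ℕ} (α : Fin k → ℤ) : Option (F × F) → Prop
  | none => True
  | some P => P.2 ^ N = ∏ i, (P.1 - (α i : F))

/-- the point lifts to the twist `w - α_i = a_i u_i ^ s` of the covering -/
def Lifts (F : Type) [Field F] (s : ℕ) {k : ℕ} (α : Fin k → ℤ) (a : Fin k → F) :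
    Option (F × F) → Prop
  | none => ∃ l : F, l ≠ 0 ∧ ∀ i, ∃ u : F, l = a i * u ^ s
  | some P => ∀ i, ∃ u : F, P.1 - (α i : F) = a i * u ^ s

/-- the point over `ℚ_q` has the same reduction modulo `q` as the point at infinity (`none`) or
as the point `(α_i, 0)` (`some i`) -/
def ReducesTo (q : ℕ) [Fact q.Prime] {k : ℕ} (α : Fin k → ℤ) :
    Option (ℚ_[q] × ℚ_[q]) → Option (Fin k) → Prop
  | none, none => True
  | none, some _ => False
  | some P, none => 1 < ‖P.1‖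
  | some P, some i => ‖P.1 - (α i : ℚ_[q])‖ < 1

/-- the absolute value of the discriminant of `(w - α_1) ... (w - α_k)` -/
def absDisc {k : ℕ} (α : Fin k → ℤ) : ℕ := ∏ i, ∏ j ∈ univ.erase i, (α i - α j).natAbs

/-- `P` is an adelic point of the curve (without its real component) and lifts to a twist -/
def Survives (s N : ℕ) {k : ℕ} (α : Fin k → ℤ)
    (P : (p : ℕ) → (_ : Fact p.Prime) → Option (ℚ_[p] × ℚ_[p])) : Prop :=
  (∀ (p : ℕ) (hp : Fact p.Prime), OnCurve ℚ_[p] N α (P p hp)) ∧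
    ∃ a : Fin k → ℚ, (∀ i, a i ≠ 0) ∧ (∃ c : ℚ, ∏ i, a i = c ^ s) ∧
      ∀ (p : ℕ) (hp : Fact p.Prime), Lifts ℚ_[p] s α (fun i => (a i : ℚ_[p])) (P p hp)

/-- the surviving adelic points reduce modulo the primes of `G` to the points `∞`, `(α_i, 0)`, and
to the same point for all primes of `G` if `k ≥ 4` or the discriminant is not `4` -/
def Reduced (s N : ℕ) {k : ℕ} (α : Fin k → ℤ) (G : Finset ℕ) : Prop :=
  ∀ P : (p : ℕ) → (_ : Fact p.Prime) → Option (ℚ_[p] × ℚ_[p]), Survives s N α P →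
    (∀ q ∈ G, ∀ hq : Fact q.Prime, ∃ R, ReducesTo q α (P q hq) R) ∧
    (4 ≤ k ∨ absDisc α ≠ 4 → ∃ R, ∀ q ∈ G, ∀ hq : Fact q.Prime, ReducesTo q α (P q hq) R)

/-- this holds for all the curves with discriminant at most `Z` -/
def AllReduced (s N : ℕ) (Z : ℝ) (G : Finset ℕ) : Prop :=
  ∀ (k : ℕ) (α : Fin k → ℤ), 3 ≤ k → Nat.Coprime N k → Function.Injective α →
    (absDisc α : ℝ) ≤ Z → Reduced s N α G

lemma lift_loc {p s k : ℕ} [Fact p.Prime] (hs : s ≠ 0) (α : Fin k → ℤ) (a : Fin k → ℚ)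
    (P : Option (ℚ_[p] × ℚ_[p])) (h : Lifts ℚ_[p] s α (fun i => (a i : ℚ_[p])) P) :
    ∃ l m : ℚ_[p], Loc p s α a l m ∧ ∀ R, Near p α l m R → ReducesTo p α P R := by
  rcases P with _ | ⟨w, y⟩
  · obtain ⟨l, hl, hu⟩ := h
    choose u hu using hu
    refine ⟨l, 0, ⟨Or.inl hl, 0, u, (zero_pow hs).symm, fun i => ?_⟩, ?_⟩
    · rw [mul_zero, sub_zero]
      exact hu i
    · intro R hR
      rcases R with _ | i
      · trivial
      · have h1 : ‖l - (α i : ℚ_[p]) * 0‖ < ‖(0 : ℚ_[p])‖ := hR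
        rw [norm_zero] at h1
        exact absurd h1 (not_lt.mpr (norm_nonneg _))
  · have hu : ∀ i, ∃ u : ℚ_[p], w - (α i : ℚ_[p]) = (a i : ℚ_[p]) * u ^ s := h
    choose u hu using hu
    refine ⟨w, 1, ⟨Or.inr one_ne_zero, 1, u, (one_pow s).symm, fun i => ?_⟩, ?_⟩
    · rw [mul_one]
      exact hu i
    · intro R hR
      rcases R with _ | i
      · have h1 : ‖(1 : ℚ_[p])‖ < ‖w‖ := hR
        rw [norm_one] at h1
        exact h1
      · have h1 : ‖w - (α i : ℚ_[p]) * 1‖ < ‖(1 : ℚ_[p])‖ := hR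
        rw [norm_one, mul_one] at h1
        exact h1

theorem result :
    (∃ δ : ℝ, 0 < δ ∧ ∃ S : Set ℕ, (∀ s ∈ S, s.Prime) ∧
      (∃ c : ℝ, 0 < c ∧ ∃ X₀ : ℕ, ∀ X : ℕ, X₀ ≤ X →
        c ≤ ∑ᶠ s ∈ {s : ℕ | s ∈ S ∧ (X : ℝ) ^ (5 / 8 : ℝ) ≤ s ∧ s ≤ X}, (1 : ℝ) / s) ∧
      ∀ s ∈ S, ∃ G : Finset ℕ, (s : ℝ) ^ δ ≤ (G.card : ℝ) ∧ (∀ q ∈ G, q.Prime ∧ s ∣ q - 1) ∧
        ∀ N : ℕ, 0 < N → s ∣ N → AllReduced s N ((s : ℝ) ^ δ) G) ∧
    (∀ η : ℝ, 0 < η → ∃ κ : ℝ, 0 < κ ∧ ∃ X₁ : ℕ, ∀ X : ℕ, X₁ ≤ X →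
      (Set.ncard {N : ℕ | N ≤ X ∧ ¬ (0 < N → ∃ s : ℕ, s.Prime ∧ s ∣ N ∧ (N : ℝ) ^ κ ≤ s ∧
        ∃ G : Finset ℕ, (N : ℝ) ^ κ ≤ (G.card : ℝ) ∧ (∀ q ∈ G, q.Prime ∧ s ∣ q - 1) ∧
          AllReduced s N ((N : ℝ) ^ κ) G)} : ℝ) ≤ η * X) := by
  classical
  obtain ⟨δ, hδ0, hδ1, S, hS, hdens⟩ := diagV 1 le_rfl _ usparse_BD 5
  have main : ∀ s ∈ S, (s : ℝ) ^ (δ / 2) ≤ s ∧ ∃ G : Finset ℕ, (s : ℝ) ^ (δ / 2) ≤ (G.card : ℝ) ∧
      (∀ q ∈ G, q.Prime ∧ s ∣ q - 1) ∧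
        ∀ N : ℕ, 0 < N → s ∣ N → AllReduced s N ((s : ℝ) ^ (δ / 2)) G := by
    intro s hs
    obtain ⟨hsp, hs2, G, hG1, hG2⟩ := hS s hs
    have hs1 : (1 : ℝ) ≤ s := by exact_mod_cast (by omega : 1 ≤ s)
    have hpow : ∀ x y : ℝ, x ≤ y → (s : ℝ) ^ x ≤ (s : ℝ) ^ y := fun x y h =>
      Real.rpow_le_rpow_of_exponent_le hs1 h
    have hle : (s : ℝ) ^ (δ / 2) ≤ s := by
      calc (s : ℝ) ^ (δ / 2) ≤ (s : ℝ) ^ (1 : ℝ) := hpow _ _ (by linarith)
        _ = s := Real.rpow_one _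
    refine ⟨hle, G, (hpow _ _ (by linarith)).trans hG1, fun q hq => ⟨(hG2 q hq).1, (hG2 q hq).2.2.1⟩, ?_⟩
    intro N hN hsN k α hk hcop hα hdZ P hP
    have hspos : (0 : ℝ) < (s : ℝ) ^ (δ / 2) := Real.rpow_pos_of_pos (by linarith) _
    obtain ⟨H, hH⟩ : ∃ H, H = ⌊(s : ℝ) ^ (δ / 2)⌋₊ := ⟨_, rfl⟩
    have hHr : (H : ℝ) ≤ (s : ℝ) ^ (δ / 2) := by rw [hH]; exact Nat.floor_le hspos.le
    have hdH : disc α ≤ H := by rw [hH]; exact Nat.le_floor hdZ
    have hkH : k ≤ H := (k_le_disc hk α hα).trans hdH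
    have hpw : ∀ e : ℕ, ((H : ℝ)) ^ e ≤ (s : ℝ) ^ (δ / 2 * e) := by
      intro e
      calc ((H : ℝ)) ^ e ≤ ((s : ℝ) ^ (δ / 2)) ^ e := pow_le_pow_left₀ (Nat.cast_nonneg H) hHr e
        _ = (s : ℝ) ^ (δ / 2 * e) := by
            rw [← Real.rpow_natCast, ← Real.rpow_mul (by linarith)]
    have hH16 : H ^ 16 ≤ s := by
      have h1 : ((H : ℝ)) ^ 16 ≤ s := by
        refine (hpw 16).trans ?_
        calc (s : ℝ) ^ (δ / 2 * ((16 : ℕ) : ℝ)) ≤ (s : ℝ) ^ (1 : ℝ) := by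
              apply hpow
              push_cast
              linarith
          _ = s := Real.rpow_one _
      exact_mod_cast h1
    have hMr : ((H ^ 2 : ℕ) : ℝ) ≤ (s : ℝ) ^ δ := by
      push_cast
      refine (hpw 2).trans (hpow _ _ ?_)
      push_cast
      linarith
    obtain ⟨-, a, ha, ⟨c, hc⟩, hlift⟩ := hP
    obtain ⟨a', b', ⟨hb', hab⟩, hall⟩ := global (M := H ^ 2) hsp (by omega) hH16 rfl hk hkH α hα hdH a ha
      c hc (fun p hp => by
        obtain ⟨l, m, h, -⟩ := lift_loc hsp.ne_zero α a (P p hp) (hlift p hp)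
        exact ⟨l, m, h⟩)
    have each : ∀ q ∈ G, ∀ hq : Fact q.Prime, ∃ R, ReducesTo q α (P q hq) R ∧ Cl α a' b' R := by
      intro q hq hF
      obtain ⟨k1, -, k3, k4⟩ := hG2 q hq
      obtain ⟨l, m, h1, h2⟩ := lift_loc hsp.ne_zero α a (P q hF) (hlift q hF)
      obtain ⟨R, hR1, hR2⟩ := hall q k1 k3 (k4 _ hMr) hF l m h1
      exact ⟨R, h2 R hR1, hR2⟩
    refine ⟨fun q hq hF => ?_, fun h4 => ?_⟩
    · obtain ⟨R, hR, -⟩ := each q hq hF
      exact ⟨R, hR⟩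
    · obtain ⟨q0, hq0⟩ : G.Nonempty := by
        rw [← Finset.card_pos]
        have : (0 : ℝ) < (G.card : ℝ) :=
          (Real.rpow_pos_of_pos (by linarith) _ : (0 : ℝ) < (s : ℝ) ^ δ).trans_le hG1
        exact_mod_cast this
      obtain ⟨R0, -, hR0⟩ := each q0 hq0 ⟨(hG2 q0 hq0).1⟩
      refine ⟨R0, fun q hq hF => ?_⟩
      obtain ⟨R, hR, hR'⟩ := each q hq hF
      have hu : R0 = R := by
        rcases h4 with h4 | h4
        · exact Cl_unique h4 α hα a' b' hb' hR0 hR'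
        · exact Cl_unique' hk α hα h4 a' b' hb' hab hR0 hR'
      rw [hu]
      exact hR
  refine ⟨⟨δ / 2, by linarith, S, fun s hs => (hS s hs).1, hdens, fun s hs => (main s hs).2⟩, ?_⟩
  refine almost_all_of S (fun s hs => (hS s hs).1) hdens
    (fun Z N => 0 < N → ∃ s : ℕ, s.Prime ∧ s ∣ N ∧ Z ≤ s ∧ ∃ G : Finset ℕ, Z ≤ (G.card : ℝ) ∧
      (∀ q ∈ G, q.Prime ∧ s ∣ q - 1) ∧ AllReduced s N Z G) (δ / 2) (by linarith) 0 ?_ ?_
  · intro s hs _ N hN h0
    obtain ⟨h1, G, h2, h3, h4⟩ := main s hs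
    exact ⟨s, (hS s hs).1, hN, h1, G, h2, h3, h4 N h0 hN⟩
  · intro z z' N hz h h0
    obtain ⟨s, hs, hsN, hzs, G, h1, h2, h3⟩ := h h0
    exact ⟨s, hs, hsN, hz.trans hzs, G, hz.trans h1, h2,
      fun k α hk hcop hα hdZ => h3 k α hk hcop hα (hdZ.trans hz)⟩

end Pool.Agent.Results.MP_308fa9_nt.SuperellipticDescent
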