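import Pool.Agent.H458.PD.Uni
import Pool.Agent.H458.BM.Bnd
import Pool.Agent.H458.BM.Two

/-!
# Adelic points which survive 2-power descent over all fields of a class of 2-extensions

Let `F` be ANY number field and `g ≥ 1`. We consider ALL polynomials
`f = x ^ (2 g + 1) + a_(2 g - 1) x ^ (2 g - 1) + ... + a_0` with coefficients in the ring of integers of `F`,
ordered by the height: `|σ a_i| ≤ B ^ (2 g + 1 - i)` for all embeddings `σ : F → ℂ`. Let `C` be the curve
`y ^ 2 = f(x)` of genus `g`, with the point `∞` at infinity, and `J` its Jacobian (for `g = 1` these are all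
the elliptic curves over `F`).

For `f` and a finite set `Q` of primes of `F` let `C(f, Q)` be the class of all the finite Galois extensions
`M / F` of 2-power degree in which all the primes over `2` and all `v ∈ Q` split completely and in which only
primes are ramified modulo which `f` is irreducible (no condition at the infinite places).

Theorem. Let `N / F` be any finite Galois extension of 2-power degree in which the primes over `2` split
completely and `T` a finite set of primes of `F`. There are a finite set `Q` of primes, disjoint from `T` and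
prime to `2`, and `c > 0` such that for all large `B` at least `c` times the number of all `f` of height at
most `B` are irreducible modulo the primes over `2` and modulo all `v ∈ T`, `F` and `N` belong to the class
`C(f, Q)`, and for ALL `M` in the class `C(f, Q)`:

(1) `C(M) = {∞}`, `J(M) = 0`, and the 2-primary part of the Tate-Shafarevich group of `J` over `M` is zero;

(2) for all `n` an adelic point `z` of `C` over `M` lifts to an adelic point of a `2 ^ n`-covering of `C` if
and only if the classes of all its components are divisible by `2 ^ n` in the groups `J(M_w)`;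

(3) if the adelic point `z` lifts to an adelic point of a `2 ^ n`-covering, `n ≥ 1`, then at every prime `w` of
`M` over `2` either `z_w = ∞` or `z_w = (x, y)` with `|x|_w ≥ |2|_w ^ (- 2 n)`;

(4) if `z` lifts to adelic points of `2 ^ n`-coverings for all `n`, then `z_w = ∞` for all the primes `w` over
`2`: the projection of the set of these adelic points to the product of the `C(M_w)`, `w` over `2`, is the
set `C(M) = {∞}`.

An adelic point which is orthogonal to the Brauer group of `C` lifts to adelic points of `n`-coverings for all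
`n` (this direction of the theorem of Stoll on the Brauer-Manin obstruction and finite abelian descent is
standard; it is not proved here). So (4) is the assertion of the conjecture, `C(M)` is dense in the image of
the Brauer-Manin set, for the components at all the primes over `2`, for a positive proportion of all `f` over
every number field `F`, for every genus, and over all fields `M` of the (infinite) class `C(f, Q)` at the same
time. Nothing is assumed about the finiteness of Tate-Shafarevich groups.

What is new: the theorem of Scharaschkin and Skorobogatov requires that the Tate-Shafarevich group of `J` is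
finite; here only its 2-primary part is known. The group `J(M)` and the 2-primary part of the Tate-Shafarevich
group are treated in our MP_1a91b9_nt.TrivialMordellWeilGroups. The new parts are the description (2) of the
adelic points which survive, for every level `2 ^ n` and over all `M`, and the bound (3): the proof is purely
algebraic. If `z = (x, y)` is not integral, `c = - y / x ^ (g + 1)`, then the class of `z` is the class of the
integral divisor `y = c X ^ (g + 1)` on `A = (f - c ^ 2 X ^ (2 g + 2)) / (c ^ 2 x - c ^ 2 X)`, a monic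
polynomial of degree `2 g + 1`, and by the theorem on the ideals of the regular scheme `y ^ 2 = f(x)` over the
valuation ring (`Pool/Agent/H458/PD`) it is divisible by `2 ^ n` only if `2 ^ n` divides `c`, while
`|x| = |c| ^ (-2)`. The classes of the integral points are not divisible by two.
-/

set_option autoImplicit false
set_option linter.all false

namespace Pool.Agent.Results.MP_308fa9_nt.SurvivingAdelicPoints

open Polynomial Filter IsDedekindDomain NumberField
open Pool.Agent.N874.Jac (J ShaTwoTrivialReal)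
open Pool.Agent.H458.BM (Point AdelicPoint Survives ClassesArePowers NearBy)
open scoped Classical

section defs

variable {F : Type} [Field F] [NumberField F]

/-- `f` is a monic polynomial of degree `2 g + 1` with integral coefficients, without term of degree
`2 g`. -/
structure IsOdd (g : ℕ) (f : (𝓞 F)[X]) : Prop where
  monic : f.Monic
  degree : f.natDegree = 2 * g + 1
  trace : f.coeff (2 * g) = 0

variable (F) in
/-- The polynomials `f` of height at most `B`: all conjugates of the coefficient of degree `j` are at most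
`B ^ (2 g + 1 - j)` in absolute value. -/
def Polys (g B : ℕ) : Set (𝓞 F)[X] :=
  {f | IsOdd g f ∧ ∀ j ≤ 2 * g, ∀ σ : F →+* ℂ, ‖σ (f.coeff j : F)‖ ≤ (B : ℝ) ^ (2 * g + 1 - j)}

/-- `f` is irreducible modulo `v`. -/
def IrreducibleMod (f : (𝓞 F)[X]) (v : HeightOneSpectrum (𝓞 F)) : Prop :=
  Irreducible (f.map (Ideal.Quotient.mk v.asIdeal))

/-- `M / F` is unramified at `v`. -/
def Unramified (v : HeightOneSpectrum (𝓞 F)) (M : Type) [Field M] [NumberField M]
    [Algebra F M] : Prop :=
  ∀ w : HeightOneSpectrum (𝓞 M), v.asIdeal.map (algebraMap (𝓞 F) (𝓞 M)) ≤ w.asIdeal →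
    ¬ v.asIdeal.map (algebraMap (𝓞 F) (𝓞 M)) ≤ w.asIdeal ^ 2

/-- `v` splits completely in `M`: it is unramified and all integers of `M` are congruent to integers of
`F` modulo every prime over `v`. -/
def SplitsCompletely (v : HeightOneSpectrum (𝓞 F)) (M : Type) [Field M] [NumberField M]
    [Algebra F M] : Prop :=
  Unramified v M ∧
  ∀ w : HeightOneSpectrum (𝓞 M), v.asIdeal.map (algebraMap (𝓞 F) (𝓞 M)) ≤ w.asIdeal →
    ∀ y : 𝓞 M, ∃ c : 𝓞 F, y - algebraMap (𝓞 F) (𝓞 M) c ∈ w.asIdeal

/-- `M / F` is a Galois extension of 2-power degree in which the primes over `2` split completely: it is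
unramified at these primes, and `M` has an embedding over `F` in the completion of `F` at every prime over
`2`. -/
structure TwoSplit (F M : Type) [Field F] [NumberField F] [Field M] [NumberField M] [Algebra F M] :
    Prop where
  galois : IsGalois F M
  degree : ∃ n : ℕ, Module.finrank F M = 2 ^ n
  two : ∀ v : HeightOneSpectrum (𝓞 F), (2 : 𝓞 F) ∈ v.asIdeal →
    Nonempty (M →ₐ[F] v.adicCompletion F)
  unramified : ∀ v : HeightOneSpectrum (𝓞 F), (2 : 𝓞 F) ∈ v.asIdeal → Unramified v M

/-- `M` belongs to the class `C(f, Q)`. -/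
structure InClass (Q : Finset (HeightOneSpectrum (𝓞 F))) (f : (𝓞 F)[X]) (M : Type) [Field M]
    [NumberField M] [Algebra F M] : Prop where
  twoSplit : TwoSplit F M
  split : ∀ v ∈ Q, SplitsCompletely v M
  ramified : ∀ v : HeightOneSpectrum (𝓞 F), Unramified v M ∨ IrreducibleMod f v

/-- The polynomial `f` over the extension `M` of `F`. -/
noncomputable def polyOver (M : Type) [Field M] [Algebra F M] (f : (𝓞 F)[X]) : M[X] :=
  (f.map (algebraMap (𝓞 F) F)).map (algebraMap F M)

/-- The point `z` of the curve over the completion of `M` at `w` is the point at infinity or an affine point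
`(x, y)` with `|x| ≥ |2| ^ (- 2 n)`. -/
def NearInfinity {M : Type} [Field M] [NumberField M] {P : M[X]} {w : HeightOneSpectrum (𝓞 M)} (n : ℕ)
    (z : Point P (w.adicCompletion M)) : Prop := NearBy Valued.v n z

/-- An adelic point lifts to an adelic point of a `2 ^ n`-covering if and only if the classes of its components
are divisible by `2 ^ n`. -/
def LiftCriterion (M : Type) [Field M] [NumberField M] (P : M[X]) : Prop :=
  ∀ (n : ℕ) (z : AdelicPoint P (𝓞 M)), Survives (2 ^ n) z ↔ ClassesArePowers (2 ^ n) z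

/-- The bound for the components at the primes over two of the adelic points which lift to an adelic point of a
`2 ^ n`-covering, `n ≥ 1`. -/
def BoundAtTwo (M : Type) [Field M] [NumberField M] (P : M[X]) : Prop :=
  ∀ (n : ℕ) (z : AdelicPoint P (𝓞 M)), 1 ≤ n → Survives (2 ^ n) z →
    ∀ w : HeightOneSpectrum (𝓞 M), (2 : 𝓞 M) ∈ w.asIdeal → NearInfinity n (z.finite w)

/-- If an adelic point lifts to adelic points of `2 ^ n`-coverings for all `n`, then its components at the
primes over two are the point at infinity. -/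
def InfinityAtTwo (M : Type) [Field M] [NumberField M] (P : M[X]) : Prop :=
  ∀ z : AdelicPoint P (𝓞 M), (∀ n : ℕ, Survives (2 ^ n) z) →
    ∀ w : HeightOneSpectrum (𝓞 M), (2 : 𝓞 M) ∈ w.asIdeal → z.finite w = none

/-- The properties of `f` over a field `M` of the class. -/
structure Surviving (M : Type) [Field M] [NumberField M] (P : M[X]) : Prop where
  jacobian : Subsingleton (J P M)
  curve : ∀ x y : M, y ^ 2 ≠ P.eval x
  sha : ShaTwoTrivialReal P (𝓞 M)
  criterion : LiftCriterion M P
  bound : BoundAtTwo M P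
  infinity : InfinityAtTwo M P

/-- The properties of the polynomials in the theorem. -/
structure Good (Q T : Finset (HeightOneSpectrum (𝓞 F))) (N : Type) [Field N] [NumberField N]
    [Algebra F N] (f : (𝓞 F)[X]) : Prop where
  irreducible : Irreducible (f.map (algebraMap (𝓞 F) F))
  two : ∀ v : HeightOneSpectrum (𝓞 F), (2 : 𝓞 F) ∈ v.asIdeal → IrreducibleMod f v
  mod : ∀ v ∈ T, IrreducibleMod f v
  base : InClass Q f F
  inClass : InClass Q f N
  surviving : ∀ (M : Type) [Field M] [NumberField M] [Algebra F M], InClass Q f M →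
    Surviving M (polyOver M f)

end defs

section pf

variable {F : Type} [Field F] [NumberField F]

theorem spl_from {M : Type} [Field M] [NumberField M] [Algebra F M] {v : HeightOneSpectrum (𝓞 F)}
    (hv : SplitsCompletely v M) : Pool.Agent.N874.TF.Spl v M := by
  refine ⟨Pool.Agent.N874.TF.unr_of hv.1, fun w hw y => ?_⟩
  obtain ⟨y, rfl⟩ := Ideal.Quotient.mk_surjective y
  obtain ⟨c, hc⟩ := hv.2 w (Ideal.map_le_iff_le_comap.2 hw) y
  exact ⟨c, (Ideal.Quotient.eq.2 hc).symm⟩

theorem selmer_of {g : ℕ} {Q : Finset (HeightOneSpectrum (𝓞 F))} {f : (𝓞 F)[X]} (hm : f.Monic)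
    (hd : f.natDegree = 2 * g + 1) (h2 : Irreducible (Pool.Agent.N783.PF.fF f))
    (a4 : Pool.Agent.H458.RC.Uni {𝔭 | ∃ v ∈ Q, 𝔭 = v.asIdeal} f f)
    (M : Type) [Field M] [NumberField M] [Algebra F M] (hM : InClass Q f M) :
    Pool.Agent.N874.Jac.UniquelyTwoDivisible (polyOver M f) ∧ ShaTwoTrivialReal (polyOver M f) (𝓞 M) := by
  haveI := hM.twoSplit.galois
  obtain ⟨n, hn⟩ := hM.twoSplit.degree
  have hsel := a4 M (fun v hv => by
      obtain ⟨σ⟩ := hM.twoSplit.two v hv
      exact ⟨σ, fun y => σ.commutes y⟩) n hn (by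
      rintro v ⟨v', hv', h⟩
      rw [HeightOneSpectrum.ext h]
      exact spl_from (hM.split v' hv')) (by
      intro v hv
      rcases hM.ramified v with h | h
      · exact absurd (Pool.Agent.N874.TF.unr_of h) hv
      · exact h)
  exact Pool.Agent.N874.TF.genuineF hn hm (by rw [hd]; exact odd_two_mul_add_one g) h2 hsel

theorem pid_of {g : ℕ} (hg : 1 ≤ g) {Q : Finset (HeightOneSpectrum (𝓞 F))} {f : (𝓞 F)[X]}
    (hm : f.Monic) (hd : f.natDegree = 2 * g + 1) (h2 : Irreducible (Pool.Agent.N783.PF.fF f))
    (a4 : Pool.Agent.H458.RC.Uni {𝔭 | ∃ v ∈ Q, 𝔭 = v.asIdeal} f f)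
    {v : HeightOneSpectrum (𝓞 F)} (hv : (2 : 𝓞 F) ∈ v.asIdeal) (hR : Pool.Agent.H458.PD.RegAt v f)
    (M : Type) [Field M] [NumberField M] [Algebra F M] (hM : InClass Q f M) :
    IsPrincipalIdealRing (Pool.Agent.Y160.SE.CR 2 (polyOver M f)) := by
  obtain ⟨σ⟩ := hM.twoSplit.two v hv
  have h3 := (Pool.Agent.H458.PD.glo_ring σ hv hR hm hd h2.separable (P := polyOver M f) rfl
    (selmer_of hm hd h2 a4 M hM).1).2.1
  have hid : (polyOver M f).map (algebraMap M M) = polyOver M f := Polynomial.map_id
  have h4 : IsPrincipalIdealRing (Pool.Agent.Y160.SE.CR 2 ((polyOver M f).map (algebraMap M M))) := h3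
  rwa [hid] at h4

/-- The data at a prime over two. -/
theorem at_two {Q : Finset (HeightOneSpectrum (𝓞 F))} {f : (𝓞 F)[X]} {M : Type} [Field M]
    [NumberField M] [Algebra F M] (hM : InClass Q f M) (w : HeightOneSpectrum (𝓞 M))
    (hw : (2 : 𝓞 M) ∈ w.asIdeal) : ∃ v : HeightOneSpectrum (𝓞 F), (2 : 𝓞 F) ∈ v.asIdeal ∧
      ∀ x : F, w.valuation M (algebraMap F M x) = v.valuation F x := by
  obtain ⟨v, hv⟩ := Pool.Agent.N874.TF.exists_bel F w
  have h2 : (2 : 𝓞 F) ∈ v.asIdeal := by
    rw [hv, map_ofNat]
    exact hw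
  exact ⟨v, h2, Pool.Agent.N874.TF.unr_of (hM.twoSplit.unramified v h2) w fun a ha => (hv a).1 ha⟩

theorem base_mem {Q : Finset (HeightOneSpectrum (𝓞 F))} {f : (𝓞 F)[X]} : InClass Q f F := by
  have hunr : ∀ v : HeightOneSpectrum (𝓞 F), Unramified v F := by
    intro v w h1 h2
    have h3 : v.asIdeal ≤ w.asIdeal := fun a ha => Ideal.map_le_iff_le_comap.1 h1 ha
    have h4 : v.asIdeal ≤ w.asIdeal ^ 2 := fun a ha => Ideal.map_le_iff_le_comap.1 h2 ha
    have h5 : v.asIdeal = w.asIdeal := v.isMaximal.eq_of_le w.isPrime.ne_top h3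
    rw [h5] at h4
    obtain ⟨π, h6, h7⟩ := Ideal.exists_mem_pow_notMem_pow_succ w.asIdeal w.ne_bot w.isPrime.ne_top 1
    rw [pow_one] at h6
    exact h7 (h4 h6)
  refine ⟨⟨inferInstance, ⟨0, by simp⟩, fun v _ => ⟨Algebra.ofId F _⟩, fun v _ => hunr v⟩,
    fun v _ => ⟨hunr v, fun w _ y => ⟨y, ?_⟩⟩, fun v => Or.inl (hunr v)⟩
  have h0 : y - y ∈ w.asIdeal := by
    rw [sub_self]
    exact zero_mem _
  exact h0

theorem surviving_of {g : ℕ} (hg : 1 ≤ g) {Q : Finset (HeightOneSpectrum (𝓞 F))} {f : (𝓞 F)[X]}
    (hm : f.Monic) (hd : f.natDegree = 2 * g + 1) (h2 : Irreducible (Pool.Agent.N783.PF.fF f))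
    (a4 : Pool.Agent.H458.RC.Uni {𝔭 | ∃ v ∈ Q, 𝔭 = v.asIdeal} f f)
    (hR : ∀ v : HeightOneSpectrum (𝓞 F), (2 : 𝓞 F) ∈ v.asIdeal → Pool.Agent.H458.PD.RegAt v f)
    (M : Type) [Field M] [NumberField M] [Algebra F M] (hM : InClass Q f M) :
    Surviving M (polyOver M f) := by
  obtain ⟨v₀, hv₀⟩ := Pool.Agent.H458.PD.exists_two F
  obtain ⟨σ⟩ := hM.twoSplit.two v₀ hv₀
  obtain ⟨hdiv, hsha⟩ := selmer_of hm hd h2 a4 M hM
  obtain ⟨-, -, hJ, hC⟩ := Pool.Agent.H458.PD.glo_ring σ hv₀ (hR v₀ hv₀) hm hd h2.separable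
    (P := polyOver M f) rfl hdiv
  have hPm : (polyOver M f).Monic := (hm.map _).map _
  have hPs : (polyOver M f).Separable := h2.separable.map
  have hPd : (polyOver M f).natDegree = 2 * g + 1 := by
    unfold polyOver
    rw [(hm.map _).natDegree_map, hm.natDegree_map, hd]
  have hPo : Odd (polyOver M f).natDegree := by rw [hPd]; exact odd_two_mul_add_one g
  have hiff : ∀ (n : ℕ) (z : AdelicPoint (polyOver M f) (𝓞 M)),
      Survives (2 ^ n) z ↔ ClassesArePowers (2 ^ n) z := fun n z =>
    Pool.Agent.H458.BM.survives_iff two_ne_zero hPm hPs hPo hJ hsha n z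
  refine ⟨hJ, hC hg, hsha, hiff, fun n z hn hz w hw => ?_, fun z hz w hw => ?_⟩
  · obtain ⟨v, hv, hvw⟩ := at_two hM w hw
    have h3 := ((hiff n z).1 hz).1 w
    generalize z.finite w = q at h3 ⊢
    cases q with
    | none => trivial
    | some p => exact Pool.Agent.H458.BM.point_bound hm hg hd rfl hv (hR v hv) hvw p hn h3
  · obtain ⟨v, hv, hvw⟩ := at_two hM w hw
    exact Pool.Agent.H458.BM.point_inf hm hg hd rfl hv (hR v hv) hvw _ fun n =>
      ((hiff n z).1 (hz n)).1 w

end pf

/-- **Adelic points which survive 2-power descent.** For every number field `F`, every `g ≥ 1`, every Galois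
extension `N / F` of 2-power degree in which the primes over `2` split completely and every finite set `T` of
primes of `F` there are a finite set `Q` of primes, disjoint from `T` and prime to `2`, and `c > 0` such that
for all large `B` at least `c` times the number of all the `f` of height at most `B` are good: `F` and `N`
belong to the class `C(f, Q)`, and for ALL the extensions `M` in the class `C(M) = {∞}`, `J(M) = 0`, the
2-primary part of the Tate-Shafarevich group is zero, an adelic point of `C` over `M` lifts to an adelic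
point of a `2 ^ n`-covering if and only if the classes of its components are divisible by `2 ^ n`, its
components `(x, y)` at the primes over two then satisfy `|x| ≥ |2| ^ (- 2 n)`, and if this is so for all `n`, all
its components at the primes over two are the point at infinity. -/
theorem result (F : Type) [Field F] [NumberField F] (g : ℕ) (hg : 1 ≤ g)
    (N : Type) [Field N] [NumberField N] [Algebra F N] (hN : TwoSplit F N)
    (T : Finset (HeightOneSpectrum (𝓞 F))) :
    (∀ B : ℕ, (Polys F g B).Finite) ∧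
    ∃ Q : Finset (HeightOneSpectrum (𝓞 F)), Disjoint Q T ∧ (∀ v ∈ Q, (2 : 𝓞 F) ∉ v.asIdeal) ∧
      ∃ c : ℝ, 0 < c ∧ ∀ᶠ B : ℕ in atTop, 0 < (Polys F g B).ncard ∧
        c * ((Polys F g B).ncard : ℝ) ≤ ({f ∈ Polys F g B | Good Q T N f}.ncard : ℝ) := by
  have heq : ∀ B, Polys F g B = {f : (𝓞 F)[X] | Pool.Agent.N783.PF.Ht g B f} := by
    intro B
    ext f
    exact ⟨fun h => ⟨h.1.monic, h.1.degree, h.1.trace, fun j hj σ => h.2 j hj σ⟩,
      fun h => ⟨⟨h.mon, h.deg, h.tr⟩, fun j hj σ => h.ht j hj σ⟩⟩
  obtain ⟨f₂, hf₂m, hf₂d, hf₂t, hf₂i, hf₂r⟩ := Pool.Agent.H458.BM.ex5 F g hg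
  obtain ⟨T', hT'⟩ := Pool.Agent.H458.RC.ram_fin F N
  obtain ⟨Q, hQ1, hQ2, hQ3, c, hc, B₀, hB₀⟩ := Pool.Agent.H458.RC.main F N hg (T ∪ T') 4
    (by norm_num) f₂ hf₂m hf₂d hf₂t hf₂i
  have hfin : ∀ B : ℕ, (Polys F g B).Finite := by
    intro B
    have h1 := (hB₀ (max B B₀) (le_max_right _ _)).1
    rw [← heq] at h1
    refine h1.subset fun f hf => ⟨hf.1, fun j hj σ => ?_⟩
    refine (hf.2 j hj σ).trans ?_
    exact pow_le_pow_left₀ (Nat.cast_nonneg _) (by exact_mod_cast le_max_left B B₀) _
  refine ⟨hfin, Q, ?_, hQ2, c, hc, ?_⟩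
  · exact Finset.disjoint_of_subset_right Finset.subset_union_left hQ1
  filter_upwards [eventually_ge_atTop B₀] with B hB
  obtain ⟨hHt, hle⟩ := hB₀ B hB
  have hsub : {f : (𝓞 F)[X] | Pool.Agent.N783.PF.Ht g B f ∧
      Irreducible (Pool.Agent.N783.PF.fF f) ∧
      (∀ v : HeightOneSpectrum (𝓞 F), (2 : 𝓞 F) ∈ v.asIdeal →
        Irreducible (Pool.Agent.N783.PF.rd v.asIdeal f)) ∧
      (∀ v ∈ T ∪ T', Irreducible (Pool.Agent.N783.PF.rd v.asIdeal f)) ∧
      Pool.Agent.N783.PF.Cg (Pool.Agent.N783.PF.sp F 4) f f₂ ∧ Pool.Agent.H458.RC.Mono f ∧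
      Pool.Agent.N874.TF.Tws g {𝔭 | ∃ v ∈ Q, 𝔭 = v.asIdeal} f ∧
      Pool.Agent.H458.RC.Uni {𝔭 | ∃ v ∈ Q, 𝔭 = v.asIdeal} f f ∧
      Pool.Agent.N783.PF.Min g f} ⊆ {f ∈ Polys F g B | Good Q T N f} := by
    rintro f ⟨h1, h2, a1, a2, a3, a4, -, a6, -⟩
    have hR : ∀ v₀ : HeightOneSpectrum (𝓞 F), (2 : 𝓞 F) ∈ v₀.asIdeal →
        Pool.Agent.H458.PD.RegAt v₀ f := by
      intro v₀ hv₀
      refine (hf₂r v₀ hv₀).congr fun j => ?_
      have h5 := a3 j
      have h6 : (4 : 𝓞 F) ∈ v₀.asIdeal ^ 2 := by
        have h7 := Ideal.mul_mem_mul hv₀ hv₀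
        rw [← pow_two] at h7
        norm_num at h7
        exact h7
      refine (Ideal.span_singleton_le_iff_mem _).2 (by exact_mod_cast h6) h5
    refine ⟨⟨⟨h1.mon, h1.deg, h1.tr⟩, fun j hj σ => h1.ht j hj σ⟩, ?_⟩
    refine ⟨h2, a1, fun v hv => a2 v (Finset.mem_union_left _ hv), base_mem,
      ⟨hN, fun v hv => ?_, fun v => ?_⟩,
      fun M _ _ _ hM => surviving_of hg h1.mon h1.deg h2 a6 hR M hM⟩
    · have h3 := hQ3 v hv
      exact ⟨fun w hw => Pool.Agent.H458.RC.unr_to h3.1 w hw,
        fun w hw y => Pool.Agent.H458.RC.spl_to h3 w hw y⟩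
    · by_cases hv : v ∈ T'
      · exact Or.inr (a2 v (Finset.mem_union_right _ hv))
      · exact Or.inl (hT' v hv)
  have h1 := Set.ncard_le_ncard hsub ((hfin B).subset fun f hf => hf.1)
  refine ⟨?_, ?_⟩
  · rw [Set.ncard_pos (hfin B)]
    refine ⟨X ^ (2 * g + 1), ⟨monic_X_pow _, natDegree_X_pow _, ?_⟩, fun j hj σ => ?_⟩
    · rw [coeff_X_pow, if_neg (by omega)]
    · rw [coeff_X_pow, if_neg (by omega)]
      have e0 : ((0 : 𝓞 F) : F) = 0 := rfl
      rw [e0, map_zero, norm_zero]
      positivity
  · rw [← heq] at hle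
    exact hle.trans (by exact_mod_cast h1)

end Pool.Agent.Results.MP_308fa9_nt.SurvivingAdelicPoints
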